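import Pool.Agent.Q78.WI.Stm

/-!
Project WI (helper78, MP_f9c8f0_pr), job A1: the domain of the generator is dense.
-/

open MeasureTheory Filter Topology Set
open Pool.Agent.Q78.WI

namespace Pool.Agent.Q182.WI

universe u

theorem a1 : S_A1.{u} := by
  intro H _ _ _ T hT g ε hε
  set F : ℝ → H := fun t => T (max t 0) g with hF
  have hFc : Continuous F := by
    have h1 : ContinuousOn (fun t => T t g) (Ici 0) := hT.cont g
    exact h1.comp_continuous (continuous_id.max continuous_const) (fun t => mem_Ici.2 (le_max_right _ _))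
  set P : ℝ → H := fun t => ∫ s in (0 : ℝ)..t, F s with hP
  have hd : ∀ t, HasDerivAt P (F t) t := fun t =>
    intervalIntegral.integral_hasDerivAt_right (hFc.intervalIntegrable _ _)
      hFc.stronglyMeasurable.stronglyMeasurableAtFilter hFc.continuousAt
  have hP0 : P 0 = 0 := by simp [hP]
  have hF0 : F 0 = g := by simp [hF, hT.zero]
  have hs : ∀ t, Tendsto (fun h : ℝ => h⁻¹ • (P (t + h) - P t)) (𝓝[>] 0) (𝓝 (F t)) := fun t =>
    (hasDerivAt_iff_tendsto_slope_zero.1 (hd t)).mono_left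
      (nhdsWithin_mono _ (fun x hx => ne_of_gt hx))
  have h0 : Tendsto (fun h : ℝ => h⁻¹ • P h) (𝓝[>] 0) (𝓝 g) := by
    have h1 := hs 0
    simpa [hP0, hF0] using h1
  obtain ⟨δ, hδ, hδ0⟩ : ∃ δ : ℝ, ‖δ⁻¹ • P δ - g‖ < ε ∧ δ ∈ Ioi (0 : ℝ) := by
    have h1 : ∀ᶠ h : ℝ in 𝓝[>] 0, ‖h⁻¹ • P h - g‖ < ε := by
      have h2 := h0 (Metric.ball_mem_nhds g hε)
      filter_upwards [h2] with h hh
      rw [mem_preimage, Metric.mem_ball, dist_eq_norm] at hh
      exact hh
    exact (h1.and self_mem_nhdsWithin).exists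
  have hδ0' : (0 : ℝ) < δ := hδ0
  refine ⟨δ⁻¹ • P δ, δ⁻¹ • (F δ - F 0), ?_, hδ⟩
  unfold Gen
  have key : ∀ h : ℝ, 0 < h → h⁻¹ • (T h (δ⁻¹ • P δ) - δ⁻¹ • P δ) =
      δ⁻¹ • (h⁻¹ • (P (δ + h) - P δ) - h⁻¹ • (P (0 + h) - P 0)) := by
    intro h hh
    have e1 : T h (P δ) = P (δ + h) - P (0 + h) := by
      have e2 : T h (P δ) = ∫ s in (0 : ℝ)..δ, T h (F s) :=
        ((T h).intervalIntegral_comp_comm (hFc.intervalIntegrable 0 δ)).symm
      have e3 : (∫ s in (0 : ℝ)..δ, T h (F s)) = ∫ s in (0 : ℝ)..δ, F (s + h) := by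
        refine intervalIntegral.integral_congr fun s hs => ?_
        rw [uIcc_of_le hδ0'.le] at hs
        have h4 : max s 0 = s := max_eq_left hs.1
        have h5 : max (s + h) 0 = h + s := by
          rw [add_comm]
          exact max_eq_left (by linarith [hs.1])
        show T h (T (max s 0) g) = T (max (s + h) 0) g
        rw [h4, h5, hT.add h s hh.le hs.1]
        rfl
      have e4 : (∫ s in (0 : ℝ)..δ, F (s + h)) = ∫ s in (0 + h)..(δ + h), F s :=
        intervalIntegral.integral_comp_add_right F h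
      rw [e2, e3, e4]
      exact (intervalIntegral.integral_interval_sub_left (hFc.intervalIntegrable _ _)
        (hFc.intervalIntegrable _ _)).symm
    rw [map_smul, e1, hP0]
    module
  have hlim : Tendsto (fun h : ℝ => δ⁻¹ • (h⁻¹ • (P (δ + h) - P δ) - h⁻¹ • (P (0 + h) - P 0)))
      (𝓝[>] 0) (𝓝 (δ⁻¹ • (F δ - F 0))) := ((hs δ).sub (hs 0)).const_smul _
  refine hlim.congr' ?_
  filter_upwards [self_mem_nhdsWithin] with h hh
  exact (key h hh).symm

end Pool.Agent.Q182.WI
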